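import Pool.Agent.Helper14.RG.AU.FacT

set_option autoImplicit false

/-!
# Isomorphisms of the matrix Lie algebras and their extremal elements
-/

namespace Pool.Agent.Helper97.AU

open Matrix Pool.Agent.Helper14.RG.AU

section LI

variable {k : Type*} [Field k] {m n : ℕ}

/-- `D` is an isomorphism of the Lie algebras of `J` and `J'`. -/
structure LI (J : Matrix (Fin m) (Fin m) k) (J' : Matrix (Fin n) (Fin n) k)
    (D : Matrix (Fin m) (Fin m) k →ₗ[k] Matrix (Fin n) (Fin n) k) : Prop where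
  mem : ∀ X ∈ gJ J, D X ∈ gJ J'
  surj : ∀ Y ∈ gJ J', ∃ X ∈ gJ J, D X = Y
  inj : ∀ X ∈ gJ J, D X = 0 → X = 0
  lie : ∀ X ∈ gJ J, ∀ Y ∈ gJ J, D (X * Y - Y * X) = D X * D Y - D Y * D X

/-- the conclusion of `LieStd` -/
def Std (J : Matrix (Fin m) (Fin m) k)
    (D : Matrix (Fin m) (Fin m) k →ₗ[k] Matrix (Fin n) (Fin n) k) : Prop :=
  ∃ (a : Matrix (Fin n) (Fin m) k) (b : Matrix (Fin m) (Fin n) k), a * b = 1 ∧ b * a = 1 ∧
      ((∀ X ∈ gJ J, D X = a * X * b) ∨ (∀ X ∈ gJ J, D X = -(a * Xᵀ * b)))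

lemma lieStd_of {J : Matrix (Fin m) (Fin m) k} {J' : Matrix (Fin n) (Fin n) k}
    (h : ∀ D, LI J J' D → Std J D) : LieStd J J' :=
  fun D h1 h2 h3 h4 => h D ⟨h1, h2, h3, h4⟩

lemma LI.of_lieStd {J : Matrix (Fin m) (Fin m) k} {J' : Matrix (Fin n) (Fin n) k}
    (h : LieStd J J') {D : Matrix (Fin m) (Fin m) k →ₗ[k] Matrix (Fin n) (Fin n) k}
    (hD : LI J J' D) : Std J D := h D hD.mem hD.surj hD.inj hD.lie

lemma gJ_lie {J X Y : Matrix (Fin n) (Fin n) k} (hX : X ∈ gJ J) (hY : Y ∈ gJ J) :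
    X * Y - Y * X ∈ gJ J := by
  have h1 : Xᵀ * J = -(J * X) := eq_neg_of_add_eq_zero_left hX.1
  have h2 : Yᵀ * J = -(J * Y) := eq_neg_of_add_eq_zero_left hY.1
  refine ⟨?_, ?_⟩
  · rw [transpose_sub, transpose_mul, transpose_mul]
    calc (Yᵀ * Xᵀ - Xᵀ * Yᵀ) * J + J * (X * Y - Y * X)
        = Yᵀ * (Xᵀ * J) - Xᵀ * (Yᵀ * J) + (J * X * Y - J * Y * X) := by
          simp only [Matrix.sub_mul, Matrix.mul_sub, Matrix.mul_assoc]
      _ = -((Yᵀ * J) * X) + (Xᵀ * J) * Y + (J * X * Y - J * Y * X) := by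
          rw [h1, h2]
          simp only [Matrix.mul_neg, Matrix.neg_mul, ← Matrix.mul_assoc, h1, h2]
          abel
      _ = 0 := by
          rw [h1, h2]
          simp only [Matrix.neg_mul]
          abel
  · rw [Matrix.trace_sub, Matrix.trace_mul_comm, sub_self]

theorem LI.symm {J : Matrix (Fin m) (Fin m) k} {J' : Matrix (Fin n) (Fin n) k}
    {D : Matrix (Fin m) (Fin m) k →ₗ[k] Matrix (Fin n) (Fin n) k} (h : LI J J' D) :
    ∃ D' : Matrix (Fin n) (Fin n) k →ₗ[k] Matrix (Fin m) (Fin m) k, LI J' J D' ∧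
      (∀ X ∈ gJ J, D' (D X) = X) ∧ (∀ Y ∈ gJ J', D (D' Y) = Y) := by
  let f : gJ J →ₗ[k] gJ J' := D.restrict h.mem
  have hf : Function.Bijective f := by
    constructor
    · rw [← LinearMap.ker_eq_bot, LinearMap.ker_eq_bot']
      intro X hX
      apply Subtype.ext
      exact h.inj X.1 X.2 (congrArg Subtype.val hX)
    · intro Y
      obtain ⟨X, hX, e⟩ := h.surj Y.1 Y.2
      exact ⟨⟨X, hX⟩, Subtype.ext e⟩
  let e := LinearEquiv.ofBijective f hf
  obtain ⟨D', hD'⟩ := LinearMap.exists_extend ((gJ J).subtype.comp e.symm.toLinearMap)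
  have h1 : ∀ Y : gJ J', D' Y.1 = (e.symm Y).1 := fun Y => LinearMap.congr_fun hD' Y
  have h2 : ∀ X ∈ gJ J, D' (D X) = X := by
    intro X hX
    have h3 := h1 (e ⟨X, hX⟩)
    rw [e.symm_apply_apply] at h3
    exact h3
  have h3 : ∀ Y ∈ gJ J', D (D' Y) = Y := by
    intro Y hY
    obtain ⟨X, hX, rfl⟩ := h.surj Y hY
    rw [h2 X hX]
  refine ⟨D', ⟨?_, ?_, ?_, ?_⟩, h2, h3⟩
  · intro Y hY
    obtain ⟨X, hX, rfl⟩ := h.surj Y hY
    rw [h2 X hX]
    exact hX
  · intro X hX
    exact ⟨D X, h.mem X hX, h2 X hX⟩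
  · intro Y hY h0
    rw [← h3 Y hY, h0, map_zero]
  · intro X' hX' Y' hY'
    obtain ⟨X, hX, rfl⟩ := h.surj X' hX'
    obtain ⟨Y, hY, rfl⟩ := h.surj Y' hY'
    rw [← h.lie X hX Y hY, h2 X hX, h2 Y hY, h2 _ (gJ_lie hX hY)]

/-- extremal elements -/
def Ex (J : Matrix (Fin n) (Fin n) k) (X : Matrix (Fin n) (Fin n) k) : Prop :=
  X ∈ gJ J ∧ ∀ Y ∈ gJ J, ∃ c : k, X * (X * Y - Y * X) - (X * Y - Y * X) * X = c • X

lemma LI.ex {J : Matrix (Fin m) (Fin m) k} {J' : Matrix (Fin n) (Fin n) k}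
    {D : Matrix (Fin m) (Fin m) k →ₗ[k] Matrix (Fin n) (Fin n) k} (h : LI J J' D)
    {X : Matrix (Fin m) (Fin m) k} (hX : Ex J X) : Ex J' (D X) := by
  refine ⟨h.mem X hX.1, fun Y' hY' => ?_⟩
  obtain ⟨Y, hY, rfl⟩ := h.surj Y' hY'
  obtain ⟨c, hc⟩ := hX.2 Y hY
  refine ⟨c, ?_⟩
  rw [← h.lie X hX.1 Y hY, ← h.lie X hX.1 _ (gJ_lie hX.1 hY), hc, map_smul]

/-- a criterion -/
lemma ex_of {J X : Matrix (Fin n) (Fin n) k} (h1 : X ∈ gJ J) (h2 : X * X = 0)
    (h3 : ∀ Y ∈ gJ J, ∃ c : k, X * Y * X = c • X) : Ex J X := by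
  refine ⟨h1, fun Y hY => ?_⟩
  obtain ⟨c, hc⟩ := h3 Y hY
  refine ⟨-2 * c, ?_⟩
  calc X * (X * Y - Y * X) - (X * Y - Y * X) * X
      = X * X * Y - X * Y * X - (X * Y * X - Y * (X * X)) := by
        simp only [Matrix.mul_sub, Matrix.sub_mul, Matrix.mul_assoc]
    _ = (-2 * c) • X := by
        rw [h2, hc, Matrix.zero_mul, Matrix.mul_zero]
        module

end LI

section Vec

variable {k : Type*} [Field k] {m n : ℕ}

/-- proportional vectors -/
def Pa {ι : Type*} (a b : ι → k) : Prop := ∀ i j, a i * b j = a j * b i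

lemma Pa.exists_smul {ι : Type*} {a b : ι → k} (h : Pa a b) (hb : b ≠ 0) :
    ∃ c : k, a = c • b := by
  obtain ⟨j, hj⟩ := Function.ne_iff.mp hb
  have hj' : b j ≠ 0 := hj
  refine ⟨a j / b j, ?_⟩
  funext i
  have := h i j
  rw [Pi.smul_apply, smul_eq_mul, div_mul_eq_mul_div, eq_div_iff hj', this]

lemma Pa.symm {ι : Type*} {a b : ι → k} (h : Pa a b) : Pa b a := by
  intro i j
  have := h j i
  rw [mul_comm, this, mul_comm]

lemma Pa.smul_self {ι : Type*} (c : k) (a : ι → k) : Pa (c • a) a := by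
  intro i j
  simp only [Pi.smul_apply, smul_eq_mul]
  ring

/-- the minors of a sum of two matrices of rank one -/
lemma Pa.of_add {ι κ : Type*} {a b c : ι → k} {f g h : κ → k}
    (e : ∀ i j, a i * f j + b i * g j = c i * h j) : Pa a b ∨ Pa f g := by
  by_contra hcon
  rw [not_or] at hcon
  obtain ⟨h1, h2⟩ := hcon
  unfold Pa at h1 h2
  push Not at h1 h2
  obtain ⟨i, j, hij⟩ := h1
  obtain ⟨p, q, hpq⟩ := h2
  have key : (a i * b j - a j * b i) * (f p * g q - f q * g p) = 0 := by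
    have e1 := e i p
    have e2 := e j q
    have e3 := e i q
    have e4 := e j p
    have : (a i * b j - a j * b i) * (f p * g q - f q * g p)
        = (a i * f p + b i * g p) * (a j * f q + b j * g q)
          - (a i * f q + b i * g q) * (a j * f p + b j * g p) := by ring
    rw [this, e1, e2, e3, e4]
    ring
  rcases mul_eq_zero.mp key with h | h
  · exact hij (sub_eq_zero.mp h)
  · exact hpq (sub_eq_zero.mp h)

lemma vmv_ne_zero {ι κ : Type*} {a : ι → k} {b : κ → k} (ha : a ≠ 0) (hb : b ≠ 0) :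
    vecMulVec a b ≠ 0 := by
  obtain ⟨i, hi⟩ := Function.ne_iff.mp ha
  obtain ⟨j, hj⟩ := Function.ne_iff.mp hb
  intro h
  have h1 := congrFun (congrFun h i) j
  rw [vecMulVec_apply, Matrix.zero_apply] at h1
  exact (mul_ne_zero hi hj) h1

/-- a functional which is one on the first vector and zero on the second -/
lemma exists_fun {a b : Fin n → k} (h : ¬ Pa a b) :
    ∃ φ : Fin n → k, φ ⬝ᵥ a = 1 ∧ φ ⬝ᵥ b = 0 := by
  unfold Pa at h
  push Not at h
  obtain ⟨i, j, hij⟩ := h
  have hd : a i * b j - a j * b i ≠ 0 := sub_ne_zero.mpr hij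
  refine ⟨(a i * b j - a j * b i)⁻¹ • (Pi.single i (b j) - Pi.single j (b i)), ?_, ?_⟩
  · rw [smul_dotProduct, sub_dotProduct, single_dotProduct, single_dotProduct, smul_eq_mul,
      mul_comm (b j), mul_comm (b i), inv_mul_cancel₀ hd]
  · rw [smul_dotProduct, sub_dotProduct, single_dotProduct, single_dotProduct, smul_eq_mul]
    ring

/-- symmetric products vanish only trivially -/
lemma sym_ne [CharZero k] {a b : Fin n → k} (ha : a ≠ 0)
    (h : vecMulVec a b + vecMulVec b a = 0) : b = 0 := by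
  obtain ⟨i, hi⟩ := Function.ne_iff.mp ha
  have hi' : a i ≠ 0 := hi
  have e : ∀ p q, a p * b q + b p * a q = 0 := by
    intro p q
    have := congrFun (congrFun h p) q
    rwa [Matrix.add_apply, vecMulVec_apply, vecMulVec_apply, Matrix.zero_apply] at this
  have hb : b i = 0 := by
    have h1 : (2 : k) * (a i * b i) = 0 := by linear_combination e i i
    exact (mul_eq_zero.mp ((mul_eq_zero.mp h1).resolve_left two_ne_zero)).resolve_left hi'
  funext q
  have h1 := e i q
  rw [hb, zero_mul, add_zero] at h1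
  exact (mul_eq_zero.mp h1).resolve_left hi'

end Vec

section Class

variable {k : Type*} [Field k] [IsAlgClosed k] [CharZero k] {n : ℕ}

omit [CharZero k] in
lemma exists_eig (hn : 0 < n) (X : Matrix (Fin n) (Fin n) k) :
    ∃ (w : Fin n → k) (μ : k), w ≠ 0 ∧ X *ᵥ w = μ • w := by
  have : Nonempty (Fin n) := ⟨⟨0, hn⟩⟩
  obtain ⟨μ, hμ⟩ := Module.End.exists_eigenvalue (Matrix.toLin' X)
  obtain ⟨w, hw⟩ := hμ.exists_hasEigenvector
  refine ⟨w, μ, hw.2, ?_⟩
  have := hw.apply_eq_smul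
  rwa [Matrix.toLin'_apply] at this

omit [IsAlgClosed k] [CharZero k] in
lemma rank_one_of_smul {X : Matrix (Fin n) (Fin n) k} {c : k} {a b : Fin n → k}
    (h : vecMulVec a b = c • X) (hne : vecMulVec a b ≠ 0) :
    ∃ u f : Fin n → k, X = vecMulVec u f := by
  have hc : c ≠ 0 := by
    rintro rfl
    rw [zero_smul] at h
    exact hne h
  refine ⟨c⁻¹ • a, b, ?_⟩
  rw [Matrix.smul_vecMulVec, h, smul_smul, inv_mul_cancel₀ hc, one_smul]

/-- the extremal elements of `sl_n` have rank one -/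
theorem ex_sl {X : Matrix (Fin n) (Fin n) k} (h : Ex 0 X) :
    ∃ u f : Fin n → k, X = vecMulVec u f := by
  rcases Nat.eq_zero_or_pos n with hn | hn
  · subst hn
    exact ⟨0, 0, Subsingleton.elim _ _⟩
  by_cases hX0 : X = 0
  · exact ⟨0, 0, by rw [hX0, Matrix.zero_vecMulVec]⟩
  have hnk : (n : k) ≠ 0 := by
    rw [Nat.cast_ne_zero]
    omega
  have all : ∀ Y : Matrix (Fin n) (Fin n) k, ∃ c : k,
      X * (X * Y - Y * X) - (X * Y - Y * X) * X = c • X := by
    intro Y
    obtain ⟨c, hc⟩ := h.2 (Y - (Y.trace / n) • (1 : Matrix (Fin n) (Fin n) k)) ⟨by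
      rw [Matrix.mul_zero, Matrix.zero_mul, add_zero], by
      rw [Matrix.trace_sub, Matrix.trace_smul, Matrix.trace_one, Fintype.card_fin, smul_eq_mul,
        div_mul_cancel₀ _ hnk, sub_self]⟩
    refine ⟨c, ?_⟩
    have e : X * (Y - (Y.trace / n) • (1 : Matrix (Fin n) (Fin n) k))
        - (Y - (Y.trace / n) • (1 : Matrix (Fin n) (Fin n) k)) * X = X * Y - Y * X := by
      rw [Matrix.mul_sub, Matrix.sub_mul, Matrix.mul_smul, Matrix.smul_mul, Matrix.mul_one,
        Matrix.one_mul]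
      abel
    rw [e] at hc
    exact hc
  obtain ⟨w, μ, hw, hμ⟩ := exists_eig hn X
  set N := X - μ • (1 : Matrix (Fin n) (Fin n) k) with hN
  by_cases hNN : N * N = 0
  · -- then `μ = 0` and `X * X = 0`
    have h1 : N.trace = 0 := by
      have h2 : IsNilpotent N := ⟨2, by rw [pow_two, hNN]⟩
      exact (Matrix.isNilpotent_trace_of_isNilpotent h2).eq_zero
    have h2 : μ = 0 := by
      rw [hN, Matrix.trace_sub, h.1.2, Matrix.trace_smul, Matrix.trace_one, Fintype.card_fin,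
        smul_eq_mul, zero_sub, neg_eq_zero] at h1
      exact (mul_eq_zero.mp h1).resolve_right hnk
    have h3 : N = X := by rw [hN, h2, zero_smul, sub_zero]
    rw [h3] at hNN
    obtain ⟨i, j, hij⟩ : ∃ i j, X i j ≠ 0 := by
      by_contra hcon
      push Not at hcon
      exact hX0 (by ext i j; exact hcon i j)
    obtain ⟨c, hc⟩ := all (single j i 1)
    have e : X * (X * single j i 1 - single j i 1 * X) - (X * single j i 1 - single j i 1 * X) * X
        = (-2 : k) • (X * single j i 1 * X) := by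
      calc X * (X * single j i 1 - single j i 1 * X) - (X * single j i 1 - single j i 1 * X) * X
          = X * X * single j i 1 - X * single j i 1 * X
            - (X * single j i 1 * X - single j i 1 * (X * X)) := by
            simp only [Matrix.mul_sub, Matrix.sub_mul, Matrix.mul_assoc]
        _ = (-2 : k) • (X * single j i 1 * X) := by
            rw [hNN, Matrix.zero_mul, Matrix.mul_zero]
            module
    have e2 : X * single j i 1 * X = vecMulVec (X *ᵥ Pi.single j 1) (Pi.single i 1 ᵥ* X) := by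
      rw [Matrix.single_eq_single_vecMulVec_single, Matrix.mul_vecMulVec, Matrix.vecMulVec_mul]
    rw [e, e2, ← Matrix.smul_vecMulVec] at hc
    refine rank_one_of_smul hc ?_
    refine vmv_ne_zero (smul_ne_zero (by norm_num) ?_) ?_
    · intro h0
      have := congrFun h0 i
      rw [Matrix.mulVec_single_one] at this
      exact hij this
    · intro h0
      have := congrFun h0 j
      rw [Matrix.single_one_vecMul] at this
      exact hij this
  · obtain ⟨g, hg⟩ : ∃ g : Fin n → k, g ᵥ* (N * N) ≠ 0 := by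
      by_contra hcon
      push Not at hcon
      apply hNN
      ext i j
      have := congrFun (hcon (Pi.single i 1)) j
      rw [Matrix.single_one_vecMul] at this
      exact this
    obtain ⟨c, hc⟩ := all (vecMulVec w g)
    have e1 : X * vecMulVec w g = μ • vecMulVec w g := by
      rw [Matrix.mul_vecMulVec, hμ, Matrix.smul_vecMulVec]
    have e : X * (X * vecMulVec w g - vecMulVec w g * X)
        - (X * vecMulVec w g - vecMulVec w g * X) * X = vecMulVec w g * (N * N) := by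
      rw [hN]
      simp only [Matrix.mul_sub, Matrix.sub_mul, Matrix.mul_smul, Matrix.smul_mul, Matrix.mul_one,
        Matrix.one_mul, ← Matrix.mul_assoc, e1]
      module
    rw [e, Matrix.vecMulVec_mul] at hc
    exact rank_one_of_smul hc (vmv_ne_zero hw hg)

end Class

end Pool.Agent.Helper97.AU
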