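import Pool.Agent.Helper97.AU.SpSp

set_option autoImplicit false

/-!
# There are no isomorphisms between matrix Lie algebras of different types
-/

namespace Pool.Agent.Helper97.AU

open Matrix Pool.Agent.Helper14.RG.AU

section Gen

variable {k : Type*} [Field k] {m n : ℕ}

lemma lieStd_congr {J J1 : Matrix (Fin m) (Fin m) k} {J' J1' : Matrix (Fin n) (Fin n) k}
    (h1 : gJ J = gJ J1) (h2 : gJ J' = gJ J1') (h : LieStd J1 J1') : LieStd J J' := by
  unfold LieStd at h ⊢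
  rw [h1, h2]
  exact h

lemma lieStd_of_false {J : Matrix (Fin m) (Fin m) k} {J' : Matrix (Fin n) (Fin n) k}
    (h : ∀ D, LI J J' D → False) : LieStd J J' := lieStd_of fun D hD => (h D hD).elim

lemma no_li_symm {J : Matrix (Fin m) (Fin m) k} {J' : Matrix (Fin n) (Fin n) k}
    (h : ∀ D, LI J J' D → False) : ∀ D, LI J' J D → False := by
  intro D hD
  obtain ⟨D', hD', -, -⟩ := hD.symm
  exact h D' hD'

/-- the extremal elements of `sl_n` -/
lemma sl_ex {u f : Fin n → k} (h : f ⬝ᵥ u = 0) : Ex 0 (vecMulVec u f) := by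
  refine ex_of ⟨?_, ?_⟩ ?_ fun Y _ => ⟨_, vmv_mul_mul _ _ _ _ _⟩
  · rw [Matrix.mul_zero, Matrix.zero_mul, add_zero]
  · rw [trace_vmv, dotProduct_comm, h]
  · rw [Matrix.vecMulVec_mul_vecMulVec, h, zero_smul]
    exact Matrix.vecMulVec_zero _

/-- the wedge product -/
def wg (u v : Fin n → k) : Matrix (Fin n) (Fin n) k := vecMulVec u v - vecMulVec v u

lemma wg_apply (u v : Fin n → k) (i j : Fin n) : wg u v i j = u i * v j - v i * u j := by
  unfold wg
  rw [Matrix.sub_apply, vecMulVec_apply, vecMulVec_apply]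

lemma wg_add (u v w : Fin n → k) : wg u (v + w) = wg u v + wg u w := by
  unfold wg
  rw [Matrix.vecMulVec_add, Matrix.add_vecMulVec]
  abel

lemma wg_mulVec (u v z : Fin n → k) : wg u v *ᵥ z = (v ⬝ᵥ z) • u - (u ⬝ᵥ z) • v := by
  unfold wg
  rw [Matrix.sub_mulVec, Matrix.vecMulVec_mulVec, Matrix.vecMulVec_mulVec, op_smul_eq_smul,
    op_smul_eq_smul]

lemma wg_mem (u v : Fin n → k) : wg u v ∈ gJ (1 : Matrix (Fin n) (Fin n) k) := by
  refine ⟨?_, ?_⟩
  · rw [Matrix.mul_one, Matrix.one_mul]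
    unfold wg
    rw [transpose_sub, vmv_transpose, vmv_transpose]
    abel
  · unfold wg
    rw [Matrix.trace_sub, trace_vmv, trace_vmv, dotProduct_comm, sub_self]

lemma so_ex [CharZero k] {u v : Fin n → k} (h1 : u ⬝ᵥ u = 0) (h2 : u ⬝ᵥ v = 0)
    (h3 : v ⬝ᵥ v = 0) : Ex 1 (wg u v) := by
  refine ex_of (wg_mem u v) ?_ fun Y hY => ⟨v ⬝ᵥ (Y *ᵥ u), ?_⟩
  · have h2' : v ⬝ᵥ u = 0 := by rw [dotProduct_comm, h2]
    unfold wg
    rw [Matrix.sub_mul, Matrix.mul_sub, Matrix.mul_sub]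
    simp only [Matrix.vecMulVec_mul_vecMulVec, h1, h2, h2', h3, zero_smul, Matrix.vecMulVec_zero,
      sub_self]
  · have hYt : Yᵀ = -Y := by
      have := hY.1
      rw [Matrix.mul_one, Matrix.one_mul] at this
      exact eq_neg_of_add_eq_zero_left this
    have hsk : ∀ a b : Fin n → k, a ⬝ᵥ (Y *ᵥ b) = -(b ⬝ᵥ (Y *ᵥ a)) := by
      intro a b
      calc a ⬝ᵥ (Y *ᵥ b) = b ⬝ᵥ (Yᵀ *ᵥ a) := by
            rw [Matrix.dotProduct_mulVec, ← Matrix.mulVec_transpose, dotProduct_comm]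
        _ = -(b ⬝ᵥ (Y *ᵥ a)) := by rw [hYt, Matrix.neg_mulVec, dotProduct_neg]
    have hself : ∀ a : Fin n → k, a ⬝ᵥ (Y *ᵥ a) = 0 := by
      intro a
      have e := hsk a a
      have e2 : (2 : k) * (a ⬝ᵥ (Y *ᵥ a)) = 0 := by linear_combination e
      exact (mul_eq_zero.mp e2).resolve_left two_ne_zero
    unfold wg
    rw [Matrix.sub_mul, Matrix.sub_mul, Matrix.mul_sub, Matrix.mul_sub, vmv_mul_mul, vmv_mul_mul,
      vmv_mul_mul, vmv_mul_mul, hself, hself, hsk u v]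
    module

/-- vectors with seven coordinates -/
def vc (hn : 7 ≤ n) (c : Fin 7 → k) : Fin n → k := ∑ j, Pi.single (Fin.castLE hn j) (c j)

lemma vc_apply (hn : 7 ≤ n) (c : Fin 7 → k) (j : Fin 7) : vc hn c (Fin.castLE hn j) = c j := by
  unfold vc
  rw [Finset.sum_apply, Finset.sum_eq_single j]
  · rw [Pi.single_eq_same]
  · intro l _ hl
    rw [Pi.single_eq_of_ne]
    intro e
    exact hl (Fin.castLE_injective hn e).symm
  · intro h
    exact absurd (Finset.mem_univ j) h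

lemma vc_dot (hn : 7 ≤ n) (c d : Fin 7 → k) : vc hn c ⬝ᵥ vc hn d = ∑ j, c j * d j := by
  conv_lhs => unfold vc
  rw [sum_dotProduct]
  refine Finset.sum_congr rfl fun j _ => ?_
  rw [single_dotProduct]
  congr 1
  exact vc_apply hn d j

lemma vc_add (hn : 7 ≤ n) (c d : Fin 7 → k) : vc hn (c + d) = vc hn c + vc hn d := by
  unfold vc
  rw [← Finset.sum_add_distrib]
  refine Finset.sum_congr rfl fun j _ => ?_
  rw [Pi.add_apply, Pi.single_add]

end Gen

section NoPlane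

variable {k : Type*} [Field k] [IsAlgClosed k] [CharZero k] {m n : ℕ}
  {J : Matrix (Fin m) (Fin m) k} {J' : Matrix (Fin n) (Fin n) k}

/-- a symplectic Lie algebra has no plane of extremal elements -/
lemma sp_no_plane (hJ' : J'ᵀ = -J') (hdet' : J'.det ≠ 0)
    {D : Matrix (Fin m) (Fin m) k →ₗ[k] Matrix (Fin n) (Fin n) k} (h : LI J J' D)
    {x y : Matrix (Fin m) (Fin m) k} (hx : Ex J x) (hy : Ex J y) (hxy : Ex J (x + y))
    (hx0 : x ≠ 0) : ∃ c : k, y = c • x := by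
  obtain ⟨a, ha⟩ := ex_sp hJ' hdet' (h.ex hx)
  obtain ⟨b, hb⟩ := ex_sp hJ' hdet' (h.ex hy)
  obtain ⟨c, hc⟩ := ex_sp hJ' hdet' (h.ex hxy)
  rw [map_add, ha, hb] at hc
  have e : vecMulVec a a + vecMulVec b b = vecMulVec c c := by
    refine mul_J_cancel hdet' ?_
    rw [Matrix.add_mul]
    exact hc
  have hp : Pa a b := by
    rcases Pa.of_add (a := a) (b := b) (c := c) (f := a) (g := b) (h := c) (fun i j => by
      have := congrFun (congrFun e i) j
      rwa [Matrix.add_apply, vecMulVec_apply, vecMulVec_apply, vecMulVec_apply] at this) with h | h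
    · exact h
    · exact h
  have ha0 : a ≠ 0 := by
    rintro rfl
    apply hx0
    apply h.inj x hx.1
    rw [ha]
    unfold xv
    rw [Matrix.zero_vecMulVec, Matrix.zero_mul]
  obtain ⟨t, rfl⟩ := hp.symm.exists_smul ha0
  refine ⟨t * t, ?_⟩
  have e2 : D (y - (t * t) • x) = 0 := by
    rw [map_sub, map_smul, hb, ha, xv_smul, sub_self]
  exact sub_eq_zero.mp (h.inj _ ((gJ J).sub_mem hy.1 ((gJ J).smul_mem _ hx.1)) e2)

lemma no_sl_sp (hm : 3 ≤ m) (hJ' : J'ᵀ = -J') (hdet' : J'.det ≠ 0) :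
    ∀ D, LI (0 : Matrix (Fin m) (Fin m) k) J' D → False := by
  intro D h
  let i0 : Fin m := ⟨0, by omega⟩
  let i1 : Fin m := ⟨1, by omega⟩
  let i2 : Fin m := ⟨2, by omega⟩
  have h10 : i1 ≠ i0 := by simp [i0, i1]
  have h20 : i2 ≠ i0 := by simp [i0, i2]
  have h21 : i2 ≠ i1 := by simp [i1, i2]
  have e1 : (Pi.single i1 1 : Fin m → k) ⬝ᵥ Pi.single i0 1 = 0 := by
    rw [single_one_dotProduct, Pi.single_eq_of_ne h10]
  have e2 : (Pi.single i2 1 : Fin m → k) ⬝ᵥ Pi.single i0 1 = 0 := by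
    rw [single_one_dotProduct, Pi.single_eq_of_ne h20]
  have hx : Ex (0 : Matrix (Fin m) (Fin m) k) (vecMulVec (Pi.single i0 1) (Pi.single i1 1)) :=
    sl_ex e1
  have hy : Ex (0 : Matrix (Fin m) (Fin m) k) (vecMulVec (Pi.single i0 1) (Pi.single i2 1)) :=
    sl_ex e2
  have hxy : Ex (0 : Matrix (Fin m) (Fin m) k) (vecMulVec (Pi.single i0 1) (Pi.single i1 1)
      + vecMulVec (Pi.single i0 1) (Pi.single i2 1)) := by
    rw [← Matrix.vecMulVec_add]
    refine sl_ex ?_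
    rw [add_dotProduct, e1, e2, add_zero]
  obtain ⟨c, hc⟩ := sp_no_plane hJ' hdet' h hx hy hxy (by
    intro h0
    have := congrFun (congrFun h0 i0) i1
    rw [vecMulVec_apply, Pi.single_eq_same, Pi.single_eq_same, mul_one, Matrix.zero_apply] at this
    exact one_ne_zero this)
  have := congrFun (congrFun hc i0) i2
  rw [Matrix.smul_apply, vecMulVec_apply, vecMulVec_apply, Pi.single_eq_same, Pi.single_eq_same,
    Pi.single_eq_of_ne h21, mul_one, mul_zero, smul_zero] at this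
  exact one_ne_zero this

omit [IsAlgClosed k] [CharZero k] in
lemma xv_ne (hdet : J.det ≠ 0) {v : Fin m → k} (hv : v ≠ 0) : xv J v ≠ 0 := by
  intro h0
  refine vmv_ne_zero hv hv (mul_J_cancel hdet ?_)
  rw [Matrix.zero_mul]
  exact h0

omit [IsAlgClosed k] [CharZero k] in
lemma gJ_zero_small (hn : n ≤ 1) {X : Matrix (Fin n) (Fin n) k}
    (hX : X ∈ gJ (0 : Matrix (Fin n) (Fin n) k)) : X = 0 := by
  rcases Nat.lt_or_ge n 1 with h | h
  · obtain rfl : n = 0 := by omega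
    exact Subsingleton.elim _ _
  · obtain rfl : n = 1 := by omega
    have := hX.2
    ext i j
    obtain rfl : i = 0 := Subsingleton.elim _ _
    obtain rfl : j = 0 := Subsingleton.elim _ _
    rw [Matrix.trace_fin_one] at this
    rw [this, Matrix.zero_apply]

omit [IsAlgClosed k] in
lemma no_sp_small (hm : 0 < m) (hn : n ≤ 1) (hJ : Jᵀ = -J) (hdet : J.det ≠ 0) :
    ∀ D, LI J (0 : Matrix (Fin n) (Fin n) k) D → False := by
  intro D h
  have hv : (Pi.single ⟨0, hm⟩ 1 : Fin m → k) ≠ 0 := by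
    intro e
    have := congrFun e ⟨0, hm⟩
    rw [Pi.single_eq_same] at this
    exact one_ne_zero this
  exact xv_ne hdet hv (h.inj _ (xv_mem hJ hdet _).1 (gJ_zero_small hn (h.mem _ (xv_mem hJ hdet _).1)))

/-- the standard symplectic form of rank two -/
def J2 (k : Type*) [Field k] : Matrix (Fin 2) (Fin 2) k := !![0, 1; -1, 0]

omit [IsAlgClosed k] [CharZero k] in
lemma J2_skew : (J2 k)ᵀ = -J2 k := by
  unfold J2
  ext i j
  fin_cases i <;> fin_cases j <;> simp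

omit [IsAlgClosed k] [CharZero k] in
lemma J2_det : (J2 k).det ≠ 0 := by
  unfold J2
  rw [Matrix.det_fin_two_of]
  norm_num

omit [IsAlgClosed k] [CharZero k] in
lemma gJ_J2 : gJ (0 : Matrix (Fin 2) (Fin 2) k) = gJ (J2 k) := by
  ext X
  rw [mem_gJ, mem_gJ]
  constructor
  · rintro ⟨-, h⟩
    refine ⟨?_, h⟩
    rw [Matrix.trace_fin_two] at h
    ext i j
    rw [Matrix.add_apply, Matrix.mul_apply, Matrix.mul_apply, Fin.sum_univ_two, Fin.sum_univ_two,
      Matrix.zero_apply]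
    fin_cases i <;> fin_cases j <;> simp [J2]
    · linear_combination h
    · linear_combination -h
  · rintro ⟨-, h⟩
    exact ⟨by rw [Matrix.mul_zero, Matrix.zero_mul, add_zero], h⟩

theorem lieStd_sp_sl (hm : 0 < m) (hJ : Jᵀ = -J) (hdet : J.det ≠ 0) (n : ℕ) :
    LieStd J (0 : Matrix (Fin n) (Fin n) k) := by
  rcases Nat.lt_or_ge n 2 with h | h
  · exact lieStd_of_false (no_sp_small hm (by omega) hJ hdet)
  rcases Nat.lt_or_ge n 3 with h' | h'
  · obtain rfl : n = 2 := by omega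
    exact lieStd_congr rfl gJ_J2 (lieStd_sp_sp hJ hdet J2_skew J2_det hm)
  · exact lieStd_of_false (no_li_symm (no_sl_sp h' hJ hdet))

theorem lieStd_sl_sp (hm : 0 < m) (hJ : Jᵀ = -J) (hdet : J.det ≠ 0) (n : ℕ) :
    LieStd (0 : Matrix (Fin n) (Fin n) k) J := by
  rcases Nat.lt_or_ge n 2 with h | h
  · exact lieStd_of_false (no_li_symm (no_sp_small hm (by omega) hJ hdet))
  rcases Nat.lt_or_ge n 3 with h' | h'
  · obtain rfl : n = 2 := by omega
    exact lieStd_congr gJ_J2 rfl (lieStd_sp_sp J2_skew J2_det hJ hdet (by norm_num))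
  · exact lieStd_of_false (no_sl_sp h' hJ hdet)

end NoPlane

section So

variable {k : Type*} [Field k] [IsAlgClosed k] [CharZero k] {m n : ℕ}
  {J' : Matrix (Fin n) (Fin n) k}

lemma no_so_sp (hm : 7 ≤ m) (hJ' : J'ᵀ = -J') (hdet' : J'.det ≠ 0) :
    ∀ D, LI (1 : Matrix (Fin m) (Fin m) k) J' D → False := by
  intro D h
  obtain ⟨I, hI⟩ := IsAlgClosed.exists_pow_nat_eq (-1 : k) (n := 2) (by norm_num)
  have hI' : I * I = -1 := by rw [← pow_two, hI]
  have hx : Ex (1 : Matrix (Fin m) (Fin m) k) (wg (vc hm ![1, I, 0, 0, 0, 0, 0])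
      (vc hm ![0, 0, 1, I, 0, 0, 0])) := by
    refine so_ex ?_ ?_ ?_ <;> rw [vc_dot] <;> simp [Fin.sum_univ_succ, hI']
  have hy : Ex (1 : Matrix (Fin m) (Fin m) k) (wg (vc hm ![1, I, 0, 0, 0, 0, 0])
      (vc hm ![0, 0, 0, 0, 1, I, 0])) := by
    refine so_ex ?_ ?_ ?_ <;> rw [vc_dot] <;> simp [Fin.sum_univ_succ, hI']
  have hxy : Ex (1 : Matrix (Fin m) (Fin m) k) (wg (vc hm ![1, I, 0, 0, 0, 0, 0])
      (vc hm ![0, 0, 1, I, 0, 0, 0]) + wg (vc hm ![1, I, 0, 0, 0, 0, 0])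
      (vc hm ![0, 0, 0, 0, 1, I, 0])) := by
    rw [← wg_add, ← vc_add]
    refine so_ex ?_ ?_ ?_ <;> rw [vc_dot] <;> simp [Fin.sum_univ_succ, hI']
  obtain ⟨c, hc⟩ := sp_no_plane hJ' hdet' h hx hy hxy (by
    intro h0
    have := congrFun (congrFun h0 (Fin.castLE hm 0)) (Fin.castLE hm 2)
    rw [wg_apply, vc_apply, vc_apply, vc_apply, vc_apply] at this
    simp at this)
  have := congrFun (congrFun hc (Fin.castLE hm 0)) (Fin.castLE hm 4)
  rw [Matrix.smul_apply, wg_apply, wg_apply, vc_apply, vc_apply, vc_apply, vc_apply, vc_apply,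
    vc_apply] at this
  simp at this

omit [IsAlgClosed k] in
/-- a sum which is not extremal -/
lemma not_ex (hm : 7 ≤ m) (I : k) :
    ¬ Ex (1 : Matrix (Fin m) (Fin m) k)
      (wg (vc hm ![1, I, 0, 0, 0, 0, 0]) (vc hm ![0, 0, 2, 0, 0, 0, 0])) := by
  intro h
  set e := vc hm ![1, I, 0, 0, 0, 0, 0] with he
  set f := vc hm ![(0 : k), 0, 2, 0, 0, 0, 0] with hf
  set z := vc hm ![(1 : k), 0, 0, 0, 0, 0, 0] with hz
  set g := vc hm ![(0 : k), 0, 0, 0, 1, 0, 0] with hg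
  have d1 : g ⬝ᵥ e = 0 := by rw [hg, he, vc_dot]; simp [Fin.sum_univ_succ]
  have d2 : g ⬝ᵥ f = 0 := by rw [hg, hf, vc_dot]; simp [Fin.sum_univ_succ]
  have d3 : f ⬝ᵥ z = 0 := by rw [hz, hf, vc_dot]; simp [Fin.sum_univ_succ]
  have d4 : e ⬝ᵥ z = 1 := by rw [hz, he, vc_dot]; simp [Fin.sum_univ_succ]
  have d5 : f ⬝ᵥ f = 4 := by rw [hf, vc_dot]; simp [Fin.sum_univ_succ]; norm_num
  have d6 : e ⬝ᵥ f = 0 := by rw [he, hf, vc_dot]; simp [Fin.sum_univ_succ]
  have d7 : z ⬝ᵥ e = 1 := by rw [dotProduct_comm, d4]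
  have d8 : g ⬝ᵥ z = 0 := by rw [hg, hz, vc_dot]; simp [Fin.sum_univ_succ]
  have d9 : g ⬝ᵥ g = 1 := by rw [hg, vc_dot]; simp [Fin.sum_univ_succ]
  obtain ⟨c, hc⟩ := h.2 (wg z g) (wg_mem z g)
  have hgX : ∀ v, g ⬝ᵥ (wg e f *ᵥ v) = 0 := by
    intro v
    rw [wg_mulVec, dotProduct_sub, dotProduct_smul, dotProduct_smul, d1, d2, smul_zero, smul_zero,
      sub_zero]
  have h1 : g ⬝ᵥ ((wg e f * (wg e f * wg z g - wg z g * wg e f)
      - (wg e f * wg z g - wg z g * wg e f) * wg e f) *ᵥ z) = 4 := by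
    rw [Matrix.sub_mulVec, Matrix.sub_mul, Matrix.sub_mulVec, dotProduct_sub, dotProduct_sub,
      Matrix.mul_assoc (wg e f) (wg z g), ← Matrix.mulVec_mulVec z (wg e f) (wg z g * wg e f),
      ← Matrix.mulVec_mulVec z (wg e f) (wg e f * wg z g - wg z g * wg e f), hgX, hgX,
      Matrix.mul_assoc (wg z g), ← Matrix.mulVec_mulVec, ← Matrix.mulVec_mulVec]
    have q1 : wg e f *ᵥ z = -f := by
      rw [wg_mulVec, d3, d4, zero_smul, one_smul, zero_sub]
    have q2 : wg e f *ᵥ f = (4 : k) • e := by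
      rw [wg_mulVec, d5, d6, zero_smul, sub_zero]
    have q3 : wg z g *ᵥ e = -g := by
      rw [wg_mulVec, d1, d7, zero_smul, one_smul, zero_sub]
    rw [q1, Matrix.mulVec_neg, q2, Matrix.mulVec_neg, Matrix.mulVec_smul, q3, dotProduct_neg,
      dotProduct_smul, dotProduct_neg, d9]
    norm_num
  rw [hc, Matrix.smul_mulVec, dotProduct_smul, hgX, smul_zero] at h1
  norm_num at h1

omit [IsAlgClosed k] [CharZero k] in
lemma Pa.trans' {ι : Type*} {a b c : ι → k} (h1 : Pa a b) (h2 : Pa c b) (hb : b ≠ 0) :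
    Pa a c := by
  obtain ⟨s, rfl⟩ := h1.exists_smul hb
  obtain ⟨t, rfl⟩ := h2.exists_smul hb
  intro i j
  simp only [Pi.smul_apply, smul_eq_mul]
  ring

omit [IsAlgClosed k] [CharZero k] in
lemma vmv_smul_of {u f p q : Fin n → k} (h1 : Pa u p) (h2 : Pa f q) (hp : p ≠ 0) (hq : q ≠ 0) :
    ∃ c : k, vecMulVec u f = c • vecMulVec p q := by
  obtain ⟨s, rfl⟩ := h1.exists_smul hp
  obtain ⟨t, rfl⟩ := h2.exists_smul hq
  exact ⟨s * t, by rw [Matrix.vecMulVec_smul, Matrix.smul_vecMulVec, smul_smul, mul_comm]⟩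

lemma no_so_sl (hm : 7 ≤ m) :
    ∀ D, LI (1 : Matrix (Fin m) (Fin m) k) (0 : Matrix (Fin n) (Fin n) k) D → False := by
  intro D h
  obtain ⟨I, hI⟩ := IsAlgClosed.exists_pow_nat_eq (-1 : k) (n := 2) (by norm_num)
  have hI' : I * I = -1 := by rw [← pow_two, hI]
  have hI0 : I ≠ 0 := by
    rintro rfl
    rw [mul_zero] at hI'
    exact one_ne_zero (neg_eq_zero.mp hI'.symm)
  set e := vc hm ![1, I, 0, 0, 0, 0, 0] with he
  set a := vc hm ![0, 0, 1, I, 0, 0, 0] with ha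
  set b := vc hm ![0, 0, 1, -I, 0, 0, 0] with hb
  let wc : Fin 3 → Fin 7 → k := ![![0, 0, 0, 0, 1, I, 0], ![0, 0, 0, 0, 1, -I, 0],
    ![0, 0, 0, 0, 1, 0, I]]
  let w : Fin 3 → Fin m → k := fun j => vc hm (wc j)
  have he2 : e ⬝ᵥ e = 0 := by rw [he, vc_dot]; simp [Fin.sum_univ_succ, hI']
  have hx : Ex 1 (wg e a) := by
    refine so_ex he2 ?_ ?_
    · rw [he, ha, vc_dot]; simp [Fin.sum_univ_succ]
    · rw [ha, vc_dot]; simp [Fin.sum_univ_succ, hI']
  have hy : Ex 1 (wg e b) := by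
    refine so_ex he2 ?_ ?_
    · rw [he, hb, vc_dot]; simp [Fin.sum_univ_succ]
    · rw [hb, vc_dot]; simp [Fin.sum_univ_succ, hI']
  have hew : ∀ j, e ⬝ᵥ w j = 0 := by
    intro j
    fin_cases j <;> simp only [w, wc, he] <;> rw [vc_dot] <;> simp [Fin.sum_univ_succ]
  have hww : ∀ j, w j ⬝ᵥ w j = 0 := by
    intro j
    fin_cases j <;> simp only [w, wc] <;> rw [vc_dot] <;> simp [Fin.sum_univ_succ, hI']
  have haw : ∀ j, a ⬝ᵥ w j = 0 := by
    intro j
    fin_cases j <;> simp only [w, wc, ha] <;> rw [vc_dot] <;> simp [Fin.sum_univ_succ]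
  have hbw : ∀ j, b ⬝ᵥ w j = 0 := by
    intro j
    fin_cases j <;> simp only [w, wc, hb] <;> rw [vc_dot] <;> simp [Fin.sum_univ_succ]
  have hea : e ⬝ᵥ a = 0 := by rw [he, ha, vc_dot]; simp [Fin.sum_univ_succ]
  have heb : e ⬝ᵥ b = 0 := by rw [he, hb, vc_dot]; simp [Fin.sum_univ_succ]
  have haa : a ⬝ᵥ a = 0 := by rw [ha, vc_dot]; simp [Fin.sum_univ_succ, hI']
  have hbb : b ⬝ᵥ b = 0 := by rw [hb, vc_dot]; simp [Fin.sum_univ_succ, hI']
  have hz : ∀ j, Ex 1 (wg e (w j)) := fun j => so_ex he2 (hew j) (hww j)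
  have hxz : ∀ j, Ex 1 (wg e a + wg e (w j)) := by
    intro j
    rw [← wg_add]
    refine so_ex he2 ?_ ?_
    · rw [dotProduct_add, hea, hew, add_zero]
    · rw [dotProduct_add, add_dotProduct, add_dotProduct, haa, hww, haw, dotProduct_comm, haw]
      ring
  have hyz : ∀ j, Ex 1 (wg e b + wg e (w j)) := by
    intro j
    rw [← wg_add]
    refine so_ex he2 ?_ ?_
    · rw [dotProduct_add, heb, hew, add_zero]
    · rw [dotProduct_add, add_dotProduct, add_dotProduct, hbb, hww, hbw, dotProduct_comm, hbw]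
      ring
  have hxy : ¬ Ex 1 (wg e a + wg e b) := by
    rw [← wg_add, ha, hb, ← vc_add]
    have e1 : (![0, 0, 1, I, 0, 0, 0] + ![0, 0, 1, -I, 0, 0, 0] : Fin 7 → k)
        = ![0, 0, 2, 0, 0, 0, 0] := by
      funext j
      fin_cases j <;> simp
      norm_num
    rw [e1]
    exact not_ex hm I
  obtain ⟨u, f, hD1⟩ := ex_sl (h.ex hx)
  obtain ⟨u', f', hD2⟩ := ex_sl (h.ex hy)
  choose p q hD3 using fun j => ex_sl (h.ex (hz j))
  have row : ∀ c : Fin 7 → k, ∀ j : Fin 7, c 0 = 0 →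
      wg e (vc hm c) (Fin.castLE hm 0) (Fin.castLE hm j) = c j := by
    intro c j hc
    rw [wg_apply, he, vc_apply, vc_apply, vc_apply, vc_apply, hc]
    simp
  have ne0 : ∀ X : Matrix (Fin m) (Fin m) k, Ex 1 X → ∀ s t, D X = vecMulVec s t → X ≠ 0 →
      s ≠ 0 ∧ t ≠ 0 := by
    intro X hX s t hst hX0
    constructor
    · rintro rfl
      rw [Matrix.zero_vecMulVec] at hst
      exact hX0 (h.inj X hX.1 hst)
    · rintro rfl
      rw [Matrix.vecMulVec_zero] at hst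
      exact hX0 (h.inj X hX.1 hst)
  obtain ⟨hu, hf⟩ := ne0 _ hx u f hD1 (by
    intro h0
    have := congrFun (congrFun h0 (Fin.castLE hm 0)) (Fin.castLE hm 2)
    rw [ha, row _ _ rfl, Matrix.zero_apply] at this
    simp at this)
  obtain ⟨hu', hf'⟩ := ne0 _ hy u' f' hD2 (by
    intro h0
    have := congrFun (congrFun h0 (Fin.castLE hm 0)) (Fin.castLE hm 2)
    rw [hb, row _ _ rfl, Matrix.zero_apply] at this
    simp at this)
  have hpq : ∀ j, p j ≠ 0 ∧ q j ≠ 0 := by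
    intro j
    refine ne0 _ (hz j) _ _ (hD3 j) ?_
    intro h0
    have h1 := congrFun (congrFun h0 (Fin.castLE hm 0)) (Fin.castLE hm 4)
    have h2 : wc j 0 = 0 := by fin_cases j <;> rfl
    rw [row _ _ h2, Matrix.zero_apply] at h1
    have h3 : wc j 4 = 1 := by fin_cases j <;> rfl
    rw [h3] at h1
    exact one_ne_zero h1
  -- neighbours
  have nb : ∀ X Y : Matrix (Fin m) (Fin m) k, Ex 1 (X + Y) → ∀ s t s' t', D X = vecMulVec s t →
      D Y = vecMulVec s' t' → Pa s s' ∨ Pa t t' := by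
    intro X Y hXY s t s' t' h1 h2
    obtain ⟨c, d, hcd⟩ := ex_sl (h.ex hXY)
    rw [map_add, h1, h2] at hcd
    refine Pa.of_add (c := c) (h := d) fun i j => ?_
    have := congrFun (congrFun hcd i) j
    rwa [Matrix.add_apply, vecMulVec_apply, vecMulVec_apply, vecMulVec_apply] at this
  have ntr : ¬ (Pa u u' ∨ Pa f f') := by
    intro hor
    apply hxy
    obtain ⟨D', hD', hD4, -⟩ := h.symm
    have hmem := (gJ (1 : Matrix (Fin m) (Fin m) k)).add_mem hx.1 hy.1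
    rw [← hD4 _ hmem]
    refine hD'.ex ?_
    have htr : (D (wg e a + wg e b)).trace = 0 := (h.mem _ hmem).2
    rw [map_add, hD1, hD2] at htr ⊢
    rcases hor with hP | hP
    · obtain ⟨c, rfl⟩ := hP.exists_smul hu'
      rw [Matrix.smul_vecMulVec, ← Matrix.vecMulVec_smul, ← Matrix.vecMulVec_add] at htr ⊢
      rw [trace_vmv] at htr
      refine sl_ex ?_
      rw [dotProduct_comm, htr]
    · obtain ⟨c, rfl⟩ := hP.exists_smul hf'
      rw [Matrix.vecMulVec_smul, ← Matrix.smul_vecMulVec, ← Matrix.add_vecMulVec] at htr ⊢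
      rw [trace_vmv] at htr
      refine sl_ex ?_
      rw [dotProduct_comm, htr]
  rw [not_or] at ntr
  have typ : ∀ j, (Pa u (p j) ∧ Pa f' (q j)) ∨ (Pa u' (p j) ∧ Pa f (q j)) := by
    intro j
    rcases nb _ _ (hxz j) _ _ _ _ hD1 (hD3 j) with h1 | h1 <;>
      rcases nb _ _ (hyz j) _ _ _ _ hD2 (hD3 j) with h2 | h2
    · exact absurd (h1.trans' h2 (hpq j).1) ntr.1
    · exact Or.inl ⟨h1, h2⟩
    · exact Or.inr ⟨h2, h1⟩
    · exact absurd (h1.trans' h2 (hpq j).2) ntr.2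
  have same : ∀ i j, Pa (p i) (p j) → Pa (q i) (q j) → i = j := by
    intro i j h1 h2
    obtain ⟨c, hc⟩ := vmv_smul_of h1 h2 (hpq j).1 (hpq j).2
    have e1 : D (wg e (w i) - c • wg e (w j)) = 0 := by
      rw [map_sub, map_smul, hD3, hD3, hc, sub_self]
    have e2 := sub_eq_zero.mp (h.inj _ ((gJ (1 : Matrix (Fin m) (Fin m) k)).sub_mem (hz i).1
      ((gJ (1 : Matrix (Fin m) (Fin m) k)).smul_mem c (hz j).1)) e1)
    have e3 : ∀ l : Fin 7, wc i l = c * wc j l := by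
      intro l
      have h3 := congrFun (congrFun e2 (Fin.castLE hm 0)) (Fin.castLE hm l)
      have h4 : ∀ j, wc j 0 = 0 := fun j => by fin_cases j <;> rfl
      rw [Matrix.smul_apply, row _ _ (h4 i), row _ _ (h4 j), smul_eq_mul] at h3
      exact h3
    have e4 := e3 4
    have h5 : ∀ j, wc j 4 = 1 := fun j => by fin_cases j <;> rfl
    rw [h5, h5, mul_one] at e4
    have e5 := e3 5
    have e6 := e3 6
    rw [← e4, one_mul] at e5 e6
    have h2I : I ≠ -I := by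
      intro hII
      have : (2 : k) * I = 0 := by linear_combination hII
      exact hI0 ((mul_eq_zero.mp this).resolve_left two_ne_zero)
    fin_cases i <;> fin_cases j
    · rfl
    · exact absurd e5 h2I
    · exact absurd e6.symm hI0
    · exact absurd e5.symm h2I
    · rfl
    · exact absurd e6.symm hI0
    · exact absurd e6 hI0
    · exact absurd e6 hI0
    · rfl
  have pig : ∀ i j, ((Pa u (p i) ∧ Pa f' (q i)) ∧ (Pa u (p j) ∧ Pa f' (q j))) ∨
      ((Pa u' (p i) ∧ Pa f (q i)) ∧ (Pa u' (p j) ∧ Pa f (q j))) → i = j := by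
    intro i j hor
    rcases hor with ⟨⟨h1, h2⟩, h3, h4⟩ | ⟨⟨h1, h2⟩, h3, h4⟩
    · exact same i j (h1.symm.trans' h3.symm hu) (h2.symm.trans' h4.symm hf')
    · exact same i j (h1.symm.trans' h3.symm hu') (h2.symm.trans' h4.symm hf)
  have n01 : (0 : Fin 3) ≠ 1 := by decide
  have n02 : (0 : Fin 3) ≠ 2 := by decide
  have n12 : (1 : Fin 3) ≠ 2 := by decide
  rcases typ 0 with t0 | t0 <;> rcases typ 1 with t1 | t1 <;> rcases typ 2 with t2 | t2
  · exact n01 (pig _ _ (Or.inl ⟨t0, t1⟩))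
  · exact n01 (pig _ _ (Or.inl ⟨t0, t1⟩))
  · exact n02 (pig _ _ (Or.inl ⟨t0, t2⟩))
  · exact n12 (pig _ _ (Or.inr ⟨t1, t2⟩))
  · exact n12 (pig _ _ (Or.inl ⟨t1, t2⟩))
  · exact n02 (pig _ _ (Or.inr ⟨t0, t2⟩))
  · exact n01 (pig _ _ (Or.inr ⟨t0, t1⟩))
  · exact n01 (pig _ _ (Or.inr ⟨t0, t1⟩))

end So

section SoGen

universe u
variable {k : Type u} [Field k] [IsAlgClosed k] [CharZero k] {m n : ℕ}
  {J : Matrix (Fin m) (Fin m) k} {J' : Matrix (Fin n) (Fin n) k}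

lemma lieStd_so_left (hJ : Jᵀ = J) (hdet : J.det ≠ 0)
    (h : LieStd (1 : Matrix (Fin m) (Fin m) k) J') : LieStd J J' := by
  obtain ⟨P, Q, hPQ, hP⟩ := exists_orthonormal hJ hdet
  refine lieStd_tr (P' := 1) (Q' := 1) hPQ hP (by rw [Matrix.one_mul]) ?_ h
  rw [transpose_one, Matrix.one_mul, Matrix.mul_one]

lemma lieStd_so_right (hJ' : J'ᵀ = J') (hdet' : J'.det ≠ 0)
    (h : LieStd J (1 : Matrix (Fin n) (Fin n) k)) : LieStd J J' := by
  obtain ⟨P, Q, hPQ, hP⟩ := exists_orthonormal hJ' hdet'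
  refine lieStd_tr (P := 1) (Q := 1) (by rw [Matrix.one_mul]) ?_ hPQ hP h
  rw [transpose_one, Matrix.one_mul, Matrix.mul_one]

theorem lieStd_so_sp (hm : 7 ≤ m) (hJ : Jᵀ = J) (hdet : J.det ≠ 0) (hJ' : J'ᵀ = -J')
    (hdet' : J'.det ≠ 0) : LieStd J J' :=
  lieStd_so_left hJ hdet (lieStd_of_false (no_so_sp hm hJ' hdet'))

theorem lieStd_sp_so (hn : 7 ≤ n) (hJ : Jᵀ = -J) (hdet : J.det ≠ 0) (hJ' : J'ᵀ = J')
    (hdet' : J'.det ≠ 0) : LieStd J J' :=
  lieStd_so_right hJ' hdet' (lieStd_of_false (no_li_symm (no_so_sp hn hJ hdet)))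

theorem lieStd_so_sl (hm : 7 ≤ m) (hJ : Jᵀ = J) (hdet : J.det ≠ 0) (n : ℕ) :
    LieStd J (0 : Matrix (Fin n) (Fin n) k) :=
  lieStd_so_left hJ hdet (lieStd_of_false (no_so_sl hm))

theorem lieStd_sl_so (hn : 7 ≤ n) (hJ' : J'ᵀ = J') (hdet' : J'.det ≠ 0) (m : ℕ) :
    LieStd (0 : Matrix (Fin m) (Fin m) k) J' :=
  lieStd_so_right hJ' hdet' (lieStd_of_false (no_li_symm (no_so_sl hn)))

end SoGen

end Pool.Agent.Helper97.AU
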