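import Pool.Agent.Helper97.AU.Ext

set_option autoImplicit false

/-!
# Isomorphisms between symplectic Lie algebras are standard
-/

namespace Pool.Agent.Helper97.AU

open Matrix Pool.Agent.Helper14.RG.AU

section Sy

variable {k : Type*} [Field k] {n : ℕ} {J : Matrix (Fin n) (Fin n) k}

/-- the symmetric product of two vectors -/
def sy (v w : Fin n → k) : Matrix (Fin n) (Fin n) k := vecMulVec v w + vecMulVec w v

lemma sy_transpose (v w : Fin n → k) : (sy v w)ᵀ = sy v w := by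
  unfold sy
  rw [transpose_add, vmv_transpose, vmv_transpose, add_comm]

lemma sy_self (v : Fin n → k) : sy v v = (2 : k) • vecMulVec v v := by
  unfold sy
  module

lemma sy_add (v w z : Fin n → k) : sy v (w + z) = sy v w + sy v z := by
  unfold sy
  rw [Matrix.vecMulVec_add, Matrix.add_vecMulVec]
  abel

lemma sy_smul (c : k) (v w : Fin n → k) : sy v (c • w) = c • sy v w := by
  unfold sy
  rw [Matrix.vecMulVec_smul, Matrix.smul_vecMulVec, smul_add]

lemma sy_sub (v w z : Fin n → k) : sy v (w - z) = sy v w - sy v z := by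
  unfold sy
  rw [Matrix.vecMulVec_sub, Matrix.sub_vecMulVec]
  abel

/-- elements of the Lie algebra from symmetric matrices -/
lemma symJ_mem [CharZero k] (hJ : Jᵀ = -J) (hdet : J.det ≠ 0) {W : Matrix (Fin n) (Fin n) k}
    (hW : Wᵀ = W) : W * J ∈ gJ J := by
  have h1 : (W * J)ᵀ * J + J * (W * J) = 0 := by
    rw [transpose_mul, hJ, hW, Matrix.neg_mul, Matrix.neg_mul, Matrix.mul_assoc, neg_add_cancel]
  exact ⟨h1, trace_zero_of_skew hdet h1⟩

lemma symJ_of_mem (hJ : Jᵀ = -J) (hdet : J.det ≠ 0) {X : Matrix (Fin n) (Fin n) k}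
    (hX : X ∈ gJ J) : (X * J⁻¹)ᵀ = X * J⁻¹ ∧ (X * J⁻¹) * J = X := by
  have hJu : IsUnit J.det := isUnit_iff_ne_zero.mpr hdet
  constructor
  · have h2 : Xᵀ * J = -(J * X) := eq_neg_of_add_eq_zero_left hX.1
    have h3 : (J⁻¹)ᵀ = -J⁻¹ := by
      rw [Matrix.transpose_nonsing_inv, hJ]
      rw [Matrix.inv_eq_left_inv (B := -J⁻¹)]
      rw [neg_mul_neg, Matrix.nonsing_inv_mul _ hJu]
    rw [transpose_mul, h3]
    calc -J⁻¹ * Xᵀ = -J⁻¹ * (Xᵀ * J * J⁻¹) := by
          rw [Matrix.mul_assoc Xᵀ, Matrix.mul_nonsing_inv _ hJu, Matrix.mul_one]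
      _ = (J⁻¹ * J) * X * J⁻¹ := by
          rw [h2]
          simp only [Matrix.neg_mul, Matrix.mul_neg, neg_neg, Matrix.mul_assoc]
      _ = X * J⁻¹ := by rw [Matrix.nonsing_inv_mul _ hJu, Matrix.one_mul]
  · rw [Matrix.mul_assoc, Matrix.nonsing_inv_mul _ hJu, Matrix.mul_one]

lemma mul_J_cancel (hdet : J.det ≠ 0) {A B : Matrix (Fin n) (Fin n) k} (h : A * J = B * J) :
    A = B := by
  have hJu : IsUnit J.det := isUnit_iff_ne_zero.mpr hdet
  have := congrArg (· * J⁻¹) h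
  simpa only [Matrix.mul_assoc, Matrix.mul_nonsing_inv _ hJu, Matrix.mul_one] using this

lemma vmv_mul_vmv (a b c d : Fin n → k) (M : Matrix (Fin n) (Fin n) k) :
    vecMulVec a b * M * (vecMulVec c d * M) = (b ⬝ᵥ (M *ᵥ c)) • (vecMulVec a d * M) := by
  calc vecMulVec a b * M * (vecMulVec c d * M) = (vecMulVec a b * M * vecMulVec c d) * M := by
        simp only [Matrix.mul_assoc]
    _ = _ := by rw [vmv_mul_mul, Matrix.smul_mul]

lemma vmvJ_mulVec (a b z : Fin n → k) (M : Matrix (Fin n) (Fin n) k) :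
    (vecMulVec a b * M) *ᵥ z = (b ⬝ᵥ (M *ᵥ z)) • a := by
  rw [← Matrix.mulVec_mulVec, Matrix.vecMulVec_mulVec, op_smul_eq_smul]

/-- the square of `ad X` on `W J` -/
lemma ad_sq {X : Matrix (Fin n) (Fin n) k} (hX : X ∈ gJ J) (W : Matrix (Fin n) (Fin n) k) :
    X * (X * (W * J) - W * J * X) - (X * (W * J) - W * J * X) * X
      = (X * X * W + (2 : k) • (X * W * Xᵀ) + W * (Xᵀ * Xᵀ)) * J := by
  have h2 : J * X = -(Xᵀ * J) := eq_neg_of_add_eq_zero_right hX.1
  have e1 : W * J * X = -(W * Xᵀ * J) := by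
    rw [Matrix.mul_assoc, h2, Matrix.mul_neg, Matrix.mul_assoc]
  have e2 : W * Xᵀ * J * X = -(W * (Xᵀ * Xᵀ) * J) := by
    rw [Matrix.mul_assoc _ J, h2, Matrix.mul_neg]
    simp only [Matrix.mul_assoc]
  rw [e1]
  calc X * (X * (W * J) - -(W * Xᵀ * J)) - (X * (W * J) - -(W * Xᵀ * J)) * X
      = X * X * W * J + X * W * Xᵀ * J - (X * (W * J * X) + W * Xᵀ * J * X) := by
        simp only [Matrix.mul_assoc, sub_neg_eq_add, Matrix.mul_add, Matrix.add_mul]
    _ = _ := by
        rw [e1, e2]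
        simp only [Matrix.add_mul, Matrix.mul_neg, two_smul, ← Matrix.mul_assoc]
        abel

end Sy

section Class

variable {k : Type*} [Field k] [IsAlgClosed k] [CharZero k] {n : ℕ} {J : Matrix (Fin n) (Fin n) k}

omit [CharZero k] in
/-- a multiple of a square is a square -/
lemma xv_of_smul (s : k) (a : Fin n → k) : ∃ v, s • xv J a = xv J v := by
  obtain ⟨r, hr⟩ := IsAlgClosed.exists_pow_nat_eq s (n := 2) (by norm_num)
  refine ⟨r • a, ?_⟩
  unfold xv
  rw [Matrix.vecMulVec_smul, Matrix.smul_vecMulVec, smul_smul, ← pow_two, hr, Matrix.smul_mul]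

omit [CharZero k] in
lemma xv_of_smul_eq {X : Matrix (Fin n) (Fin n) k} (s c : k) (a : Fin n → k) (hs : s ≠ 0)
    (ha : vecMulVec a a ≠ 0) (hdet : J.det ≠ 0) (h : s • xv J a = c • X) : ∃ v, X = xv J v := by
  have hc : c ≠ 0 := by
    rintro rfl
    rw [zero_smul] at h
    have h1 : xv J a = 0 := (smul_eq_zero.mp h).resolve_left hs
    apply ha
    refine mul_J_cancel hdet ?_
    rw [Matrix.zero_mul]
    exact h1
  obtain ⟨v, hv⟩ := xv_of_smul (J := J) (c⁻¹ * s) a
  refine ⟨v, ?_⟩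
  rw [← hv, ← smul_smul, h, smul_smul, inv_mul_cancel₀ hc, one_smul]

/-- the extremal elements of `sp_n` are the elements `v vᵀ J` -/
theorem ex_sp (hJ : Jᵀ = -J) (hdet : J.det ≠ 0) {X : Matrix (Fin n) (Fin n) k} (h : Ex J X) :
    ∃ v : Fin n → k, X = xv J v := by
  rcases Nat.eq_zero_or_pos n with hn | hn
  · subst hn
    exact ⟨0, Subsingleton.elim _ _⟩
  by_cases hX0 : X = 0
  · refine ⟨0, ?_⟩
    rw [hX0]
    unfold xv
    rw [Matrix.zero_vecMulVec, Matrix.zero_mul]
  have key : ∀ W : Matrix (Fin n) (Fin n) k, Wᵀ = W → ∃ c : k,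
      (X * X * W + (2 : k) • (X * W * Xᵀ) + W * (Xᵀ * Xᵀ)) * J = c • X := by
    intro W hW
    obtain ⟨c, hc⟩ := h.2 _ (symJ_mem hJ hdet hW)
    rw [ad_sq h.1] at hc
    exact ⟨c, hc⟩
  obtain ⟨w, μ, hw, hμ⟩ := exists_eig hn X
  by_cases hμ0 : μ = 0
  · rw [hμ0, zero_smul] at hμ
    have hwX : w ᵥ* Xᵀ = 0 := by rw [Matrix.vecMul_transpose, hμ]
    have hXX : X * X = 0 := by
      by_contra hne
      obtain ⟨y, hy⟩ : ∃ y : Fin n → k, (X * X) *ᵥ y ≠ 0 := by
        by_contra hcon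
        push Not at hcon
        apply hne
        ext i j
        have := congrFun (hcon (Pi.single j 1)) i
        rw [Matrix.mulVec_single_one] at this
        exact this
      obtain ⟨c, hc⟩ := key (sy y w) (sy_transpose y w)
      set x := (X * X) *ᵥ y with hx
      have e : X * X * sy y w + (2 : k) • (X * sy y w * Xᵀ) + sy y w * (Xᵀ * Xᵀ) = sy w x := by
        have e1 : (X * X) *ᵥ w = 0 := by rw [← Matrix.mulVec_mulVec, hμ, Matrix.mulVec_zero]
        have e2 : w ᵥ* (Xᵀ * Xᵀ) = 0 := by rw [← Matrix.vecMul_vecMul, hwX, Matrix.zero_vecMul]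
        have e3 : y ᵥ* (Xᵀ * Xᵀ) = x := by
          rw [← transpose_mul, Matrix.vecMul_transpose]
        unfold sy
        rw [Matrix.mul_add, Matrix.mul_add, Matrix.add_mul, Matrix.add_mul, Matrix.mul_vecMulVec,
          Matrix.mul_vecMulVec, Matrix.mul_vecMulVec, Matrix.mul_vecMulVec, Matrix.vecMulVec_mul,
          Matrix.vecMulVec_mul, Matrix.vecMulVec_mul, Matrix.vecMulVec_mul, e1, e2, e3, hμ, hwX]
        simp only [Matrix.vecMulVec_zero, Matrix.zero_vecMulVec, add_zero, zero_add, smul_zero]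
        rw [← hx]
        abel
      rw [e] at hc
      have hc0 : c ≠ 0 := by
        rintro rfl
        rw [zero_smul] at hc
        have h1 : sy w x = 0 := mul_J_cancel hdet (by rw [hc, Matrix.zero_mul])
        exact hy (sym_ne hw h1)
      have hXe : X = c⁻¹ • (sy w x * J) := by rw [hc, smul_smul, inv_mul_cancel₀ hc0, one_smul]
      -- the product of the two vectors
      have h1 : (sy w x * J) *ᵥ w = 0 := by
        rw [hc, Matrix.smul_mulVec, hμ, smul_zero]
      have h2 : (x ⬝ᵥ (J *ᵥ w)) • w = 0 := by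
        have e4 : (sy w x * J) *ᵥ w = (x ⬝ᵥ (J *ᵥ w)) • w := by
          unfold sy
          rw [Matrix.add_mul, Matrix.add_mulVec, vmvJ_mulVec, vmvJ_mulVec, form_self hJ,
            zero_smul, add_zero]
        rw [← e4, h1]
      have h3 : x ⬝ᵥ (J *ᵥ w) = 0 := (smul_eq_zero.mp h2).resolve_right hw
      have h4 : w ⬝ᵥ (J *ᵥ x) = 0 := by
        rw [form_swap (η := (-1 : k)) (by rw [hJ, neg_one_smul]) w x, h3, mul_zero]
      apply hne
      rw [hXe, Matrix.smul_mul, Matrix.mul_smul]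
      have h5 : sy w x * J * (sy w x * J) = 0 := by
        unfold sy
        rw [Matrix.add_mul, Matrix.add_mul, Matrix.mul_add, Matrix.mul_add, vmv_mul_vmv,
          vmv_mul_vmv, vmv_mul_vmv, vmv_mul_vmv, h3, h4, form_self hJ, form_self hJ]
        simp only [zero_smul, add_zero]
      rw [h5, smul_zero, smul_zero]
    obtain ⟨y, hy⟩ : ∃ y : Fin n → k, X *ᵥ y ≠ 0 := by
      by_contra hcon
      push Not at hcon
      apply hX0
      ext i j
      have := congrFun (hcon (Pi.single j 1)) i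
      rw [Matrix.mulVec_single_one] at this
      exact this
    obtain ⟨c, hc⟩ := key (vecMulVec y y) (vmv_transpose y y)
    have e : (X * X * vecMulVec y y + (2 : k) • (X * vecMulVec y y * Xᵀ)
        + vecMulVec y y * (Xᵀ * Xᵀ)) * J = (2 : k) • xv J (X *ᵥ y) := by
      have e1 : Xᵀ * Xᵀ = 0 := by rw [← transpose_mul, hXX, transpose_zero]
      rw [hXX, e1, Matrix.zero_mul, Matrix.mul_zero, zero_add, add_zero, Matrix.mul_vecMulVec,
        Matrix.vecMulVec_mul, Matrix.vecMul_transpose, Matrix.smul_mul]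
      rfl
    rw [e] at hc
    exact xv_of_smul_eq 2 c _ two_ne_zero (vmv_ne_zero hy hy) hdet hc
  · obtain ⟨c, hc⟩ := key (vecMulVec w w) (vmv_transpose w w)
    have e : (X * X * vecMulVec w w + (2 : k) • (X * vecMulVec w w * Xᵀ)
        + vecMulVec w w * (Xᵀ * Xᵀ)) * J = (4 * μ * μ) • xv J w := by
      have e1 : (X * X) *ᵥ w = (μ * μ) • w := by
        rw [← Matrix.mulVec_mulVec, hμ, Matrix.mulVec_smul, hμ, smul_smul]
      have e2 : w ᵥ* Xᵀ = μ • w := by rw [Matrix.vecMul_transpose, hμ]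
      have e3 : w ᵥ* (Xᵀ * Xᵀ) = (μ * μ) • w := by
        rw [← transpose_mul, Matrix.vecMul_transpose, e1]
      rw [Matrix.mul_vecMulVec, Matrix.mul_vecMulVec, Matrix.vecMulVec_mul, Matrix.vecMulVec_mul,
        e1, e2, e3, hμ]
      unfold xv
      rw [Matrix.smul_vecMulVec, Matrix.vecMulVec_smul, Matrix.smul_vecMulVec,
        Matrix.vecMulVec_smul, ← Matrix.smul_mul]
      congr 1
      module
    rw [e] at hc
    refine xv_of_smul_eq (4 * μ * μ) c _ ?_ (vmv_ne_zero hw hw) hdet hc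
    exact mul_ne_zero (mul_ne_zero (by norm_num) hμ0) hμ0

omit [IsAlgClosed k] in
lemma xv_ex (hJ : Jᵀ = -J) (hdet : J.det ≠ 0) (v : Fin n → k) : Ex J (xv J v) :=
  ex_of (xv_mem hJ hdet v).1 (xv_mem hJ hdet v).2 fun _ _ => ⟨_, xv_mul_xv v _⟩

end Class

section Std

variable {k : Type*} [Field k] [CharZero k] {n : ℕ} {J : Matrix (Fin n) (Fin n) k}

omit [CharZero k] in
/-- the bracket with a root element -/
lemma xv_bracket (v : Fin n → k) {Y : Matrix (Fin n) (Fin n) k} (hY : Y ∈ gJ J) :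
    xv J v * Y - Y * xv J v = -(sy v (Y *ᵥ v) * J) := by
  have h2 : J * Y = -(Yᵀ * J) := eq_neg_of_add_eq_zero_right hY.1
  unfold xv sy
  rw [Matrix.mul_assoc, h2, ← Matrix.mul_assoc Y, Matrix.mul_vecMulVec, Matrix.mul_neg,
    ← Matrix.mul_assoc, Matrix.vecMulVec_mul, Matrix.vecMul_transpose, Matrix.add_mul]
  abel

/-- an element of the Lie algebra moving `v` to `w` -/
def mv (J : Matrix (Fin n) (Fin n) k) (v x : Fin n → k) (w : Fin n → k) :
    Matrix (Fin n) (Fin n) k :=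
  (sy x w - (w ⬝ᵥ (J *ᵥ v)) • vecMulVec x x) * J

lemma mv_mem (hJ : Jᵀ = -J) (hdet : J.det ≠ 0) (v x w : Fin n → k) : mv J v x w ∈ gJ J := by
  refine symJ_mem hJ hdet ?_
  rw [transpose_sub, sy_transpose, transpose_smul, vmv_transpose]

omit [CharZero k] in
lemma mv_mulVec {v x : Fin n → k} (hx : x ⬝ᵥ (J *ᵥ v) = 1) (w : Fin n → k) :
    mv J v x w *ᵥ v = w := by
  unfold mv sy
  rw [Matrix.sub_mul, Matrix.add_mul, Matrix.sub_mulVec, Matrix.add_mulVec, vmvJ_mulVec,
    vmvJ_mulVec, Matrix.smul_mul, Matrix.smul_mulVec, vmvJ_mulVec, hx, one_smul, one_smul]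
  abel

/-- as a linear map -/
def mvL (J : Matrix (Fin n) (Fin n) k) (v x : Fin n → k) :
    (Fin n → k) →ₗ[k] Matrix (Fin n) (Fin n) k where
  toFun := mv J v x
  map_add' a b := by
    unfold mv
    rw [sy_add, add_dotProduct, add_smul, ← Matrix.add_mul]
    congr 1
    abel
  map_smul' c a := by
    unfold mv
    rw [sy_smul, smul_dotProduct, smul_eq_mul, mul_smul, ← smul_sub, Matrix.smul_mul,
      RingHom.id_apply]

end Std

section Sq

variable {k : Type*} [Field k] [CharZero k] {n : ℕ}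

omit [CharZero k] in
/-- contracting a square with a functional -/
lemma sq_contract (φ s : Fin n → k) (i j : Fin n) :
    (φ ⬝ᵥ s) * (φ ⬝ᵥ s) * (s i * s j) = ((φ ⬝ᵥ s) * s i) * ((φ ⬝ᵥ s) * s j) := by ring

/-- The key step: if `a aᵀ ± (a bᵀ + b aᵀ) + s sᵀ` are both squares, `a` and `b` are not
proportional, then `s sᵀ = b bᵀ` or `s` is a multiple of `a`. -/
lemma sq_step {a b s p q : Fin n → k} (hab : ¬ Pa a b)
    (h1 : vecMulVec a a + sy a b + vecMulVec s s = vecMulVec p p)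
    (h2 : vecMulVec a a - sy a b + vecMulVec s s = vecMulVec q q) :
    vecMulVec s s = vecMulVec b b ∨ ∃ c : k, s = c • a := by
  obtain ⟨φ, h3, h4⟩ := exists_fun hab
  set σ := φ ⬝ᵥ s with hσ
  have ent : ∀ {x y : Fin n → k} (i j : Fin n), vecMulVec x y i j = x i * y j :=
    fun i j => vecMulVec_apply _ _ _ _
  -- contraction of the first identity
  have c1 : ∀ i, (φ ⬝ᵥ p) * p i = a i + b i + σ * s i := by
    intro i
    have e : (vecMulVec p p) *ᵥ φ = (vecMulVec a a + sy a b + vecMulVec s s) *ᵥ φ := by rw [h1]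
    have e' := congrFun e i
    unfold sy at e'
    rw [Matrix.add_mulVec, Matrix.add_mulVec, Matrix.add_mulVec, Matrix.vecMulVec_mulVec,
      Matrix.vecMulVec_mulVec, Matrix.vecMulVec_mulVec, Matrix.vecMulVec_mulVec,
      Matrix.vecMulVec_mulVec] at e'
    simp only [Pi.add_apply, Pi.smul_apply, MulOpposite.smul_eq_mul_unop, MulOpposite.unop_op,
      dotProduct_comm _ φ, h3, h4, ← hσ] at e'
    linear_combination e'
  have c2 : ∀ i, (φ ⬝ᵥ q) * q i = a i - b i + σ * s i := by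
    intro i
    have e : (vecMulVec q q) *ᵥ φ = (vecMulVec a a - sy a b + vecMulVec s s) *ᵥ φ := by rw [h2]
    have e' := congrFun e i
    unfold sy at e'
    rw [Matrix.add_mulVec, Matrix.sub_mulVec, Matrix.add_mulVec, Matrix.vecMulVec_mulVec,
      Matrix.vecMulVec_mulVec, Matrix.vecMulVec_mulVec, Matrix.vecMulVec_mulVec,
      Matrix.vecMulVec_mulVec] at e'
    simp only [Pi.add_apply, Pi.sub_apply, Pi.smul_apply, MulOpposite.smul_eq_mul_unop,
      MulOpposite.unop_op, dotProduct_comm _ φ, h3, h4, ← hσ] at e'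
    linear_combination e'
  have d1 : (φ ⬝ᵥ p) * (φ ⬝ᵥ p) = 1 + σ * σ := by
    have : (φ ⬝ᵥ p) * (φ ⬝ᵥ p) = φ ⬝ᵥ (fun i => (φ ⬝ᵥ p) * p i) := by
      have e : (fun i => (φ ⬝ᵥ p) * p i) = (φ ⬝ᵥ p) • p := rfl
      rw [e, dotProduct_smul, smul_eq_mul]
    rw [this]
    have e : (fun i => (φ ⬝ᵥ p) * p i) = a + b + σ • s := by
      funext i
      rw [c1 i]
      rfl
    rw [e, dotProduct_add, dotProduct_add, dotProduct_smul, h3, h4, ← hσ, smul_eq_mul, add_zero]
  have d2 : (φ ⬝ᵥ q) * (φ ⬝ᵥ q) = 1 + σ * σ := by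
    have : (φ ⬝ᵥ q) * (φ ⬝ᵥ q) = φ ⬝ᵥ (fun i => (φ ⬝ᵥ q) * q i) := by
      have e : (fun i => (φ ⬝ᵥ q) * q i) = (φ ⬝ᵥ q) • q := rfl
      rw [e, dotProduct_smul, smul_eq_mul]
    rw [this]
    have e : (fun i => (φ ⬝ᵥ q) * q i) = a - b + σ • s := by
      funext i
      rw [c2 i]
      rfl
    rw [e, dotProduct_add, dotProduct_sub, dotProduct_smul, h3, h4, ← hσ, smul_eq_mul, sub_zero]
  have f1 : ∀ i j, (1 + σ * σ) * (a i * a j + (a i * b j + b i * a j) + s i * s j)
      = (a i + b i + σ * s i) * (a j + b j + σ * s j) := by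
    intro i j
    have e := congrFun (congrFun h1 i) j
    unfold sy at e
    simp only [Matrix.add_apply, ent] at e
    rw [e, ← d1, ← c1, ← c1]
    ring
  have f2 : ∀ i j, (1 + σ * σ) * (a i * a j - (a i * b j + b i * a j) + s i * s j)
      = (a i - b i + σ * s i) * (a j - b j + σ * s j) := by
    intro i j
    have e := congrFun (congrFun h2 i) j
    unfold sy at e
    simp only [Matrix.add_apply, Matrix.sub_apply, ent] at e
    rw [e, ← d2, ← c2, ← c2]
    ring
  have g1 : ∀ i j, σ * σ * (a i * b j + b i * a j) = σ * (b i * s j + s i * b j) := by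
    intro i j
    have e : (2 : k) * (σ * σ * (a i * b j + b i * a j)) = 2 * (σ * (b i * s j + s i * b j)) := by
      linear_combination f1 i j - f2 i j
    exact mul_left_cancel₀ two_ne_zero e
  have g2 : ∀ i j, σ * σ * (a i * a j) + s i * s j = b i * b j + σ * (a i * s j + s i * a j) := by
    intro i j
    have e : (2 : k) * (σ * σ * (a i * a j) + s i * s j)
        = 2 * (b i * b j + σ * (a i * s j + s i * a j)) := by
      linear_combination f1 i j + f2 i j
    exact mul_left_cancel₀ two_ne_zero e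
  by_cases hσ0 : σ = 0
  · left
    ext i j
    have e := g2 i j
    rw [hσ0] at e
    rw [ent, ent]
    linear_combination e
  · right
    have hb : b ≠ 0 := by
      rintro rfl
      apply hab
      intro i j
      rw [Pi.zero_apply, Pi.zero_apply, mul_zero, mul_zero]
    refine ⟨σ, ?_⟩
    have h5 : s - σ • a = 0 := by
      refine sym_ne hb ?_
      ext i j
      rw [Matrix.add_apply, ent, ent, Matrix.zero_apply, Pi.sub_apply, Pi.sub_apply,
        Pi.smul_apply, Pi.smul_apply, smul_eq_mul, smul_eq_mul]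
      have e := g1 i j
      have e2 : σ * (b i * s j + s i * b j - σ * (a i * b j + b i * a j)) = 0 := by
        linear_combination -e
      have e3 := (mul_eq_zero.mp e2).resolve_left hσ0
      linear_combination e3
    exact sub_eq_zero.mp h5

end Sq

section Main

variable {k : Type*} [Field k] [IsAlgClosed k] [CharZero k] {m n : ℕ}
  {J : Matrix (Fin m) (Fin m) k} {J' : Matrix (Fin n) (Fin n) k}
  {D : Matrix (Fin m) (Fin m) k →ₗ[k] Matrix (Fin n) (Fin n) k}

omit [IsAlgClosed k] [CharZero k] in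
lemma pa_of_sq {v w : Fin m → k} {s : k} (h : vecMulVec v v = s • vecMulVec w w) : Pa v w := by
  intro i j
  have ent : ∀ i j, v i * v j = s * (w i * w j) := by
    intro i j
    have := congrFun (congrFun h i) j
    rwa [Matrix.smul_apply, vecMulVec_apply, vecMulVec_apply, smul_eq_mul] at this
  have h5 : (v i * w j - v j * w i) * (v i * w j - v j * w i) = 0 := by
    linear_combination (w j * w j) * ent i i - 2 * (w i * w j) * ent i j + (w i * w i) * ent j j
  rcases mul_eq_zero.mp h5 with h | h <;> exact sub_eq_zero.mp h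

omit [IsAlgClosed k] [CharZero k] in
lemma xv_smul (c : k) (v : Fin m → k) : xv J (c • v) = (c * c) • xv J v := by
  unfold xv
  rw [Matrix.vecMulVec_smul, Matrix.smul_vecMulVec, smul_smul, Matrix.smul_mul]

omit [IsAlgClosed k] [CharZero k] in
lemma xv_add (v w : Fin m → k) : xv J (v + w) = xv J v + sy v w * J + xv J w := by
  unfold xv sy
  rw [Matrix.vecMulVec_add, Matrix.add_vecMulVec, Matrix.add_vecMulVec, ← Matrix.add_mul,
    ← Matrix.add_mul]
  congr 1
  abel

omit [IsAlgClosed k] [CharZero k] in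
lemma xv_sub (v w : Fin m → k) : xv J (v - w) = xv J v - sy v w * J + xv J w := by
  unfold xv sy
  rw [Matrix.vecMulVec_sub, Matrix.sub_vecMulVec, Matrix.sub_vecMulVec, ← Matrix.sub_mul,
    ← Matrix.add_mul]
  congr 1
  abel

/-- Isomorphisms between symplectic Lie algebras are standard. -/
theorem li_sp_sp (hJ : Jᵀ = -J) (hdet : J.det ≠ 0) (hJ' : J'ᵀ = -J') (hdet' : J'.det ≠ 0)
    (hm : 0 < m) (h : LI J J' D) : Std J D := by
  have hJu : IsUnit J.det := isUnit_iff_ne_zero.mpr hdet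
  have hJu' : IsUnit J'.det := isUnit_iff_ne_zero.mpr hdet'
  set v0 : Fin m → k := Pi.single ⟨0, hm⟩ 1 with hv0d
  have hv0 : v0 ≠ 0 := by
    intro e
    have := congrFun e ⟨0, hm⟩
    rw [hv0d, Pi.single_eq_same] at this
    exact one_ne_zero this
  obtain ⟨a0, ha0⟩ := ex_sp hJ' hdet' (h.ex (xv_ex hJ hdet v0))
  have hxv0 : ∀ {v : Fin m → k}, xv J v = 0 → v = 0 := by
    intro v hv
    by_contra hne
    refine vmv_ne_zero hne hne (mul_J_cancel hdet ?_)
    rw [Matrix.zero_mul]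
    exact hv
  have ha00 : a0 ≠ 0 := by
    rintro rfl
    apply hv0
    apply hxv0
    apply h.inj _ (xv_mem hJ hdet v0).1
    rw [ha0]
    unfold xv
    rw [Matrix.zero_vecMulVec, Matrix.zero_mul]
  obtain ⟨x, hx⟩ : ∃ x : Fin m → k, x ⬝ᵥ (J *ᵥ v0) = 1 := by
    obtain ⟨u, hu⟩ := exists_dot_ne (mulVec_ne hdet hv0)
    exact ⟨(u ⬝ᵥ (J *ᵥ v0))⁻¹ • u, by rw [smul_dotProduct, smul_eq_mul, inv_mul_cancel₀ hu]⟩
  let F : (Fin m → k) →ₗ[k] (Fin n → k) :=
    { toFun := fun w => D (mvL J v0 x w) *ᵥ a0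
      map_add' := fun a b => by rw [map_add, map_add, Matrix.add_mulVec]
      map_smul' := fun c a => by rw [map_smul, map_smul, Matrix.smul_mulVec, RingHom.id_apply] }
  have hF : ∀ w, F w = D (mv J v0 x w) *ᵥ a0 := fun w => rfl
  have c1 : ∀ w, D (sy v0 w * J) = sy a0 (F w) * J' := by
    intro w
    have e := h.lie _ (xv_mem hJ hdet v0).1 _ (mv_mem hJ hdet v0 x w)
    rw [xv_bracket v0 (mv_mem hJ hdet v0 x w), ha0, xv_bracket a0 (h.mem _ (mv_mem hJ hdet v0 x w)),
      mv_mulVec hx, map_neg, neg_inj] at e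
    exact e
  have c2 : F v0 = a0 := by
    have e := c1 v0
    rw [sy_self, Matrix.smul_mul, map_smul] at e
    have e1 : D (vecMulVec v0 v0 * J) = xv J' a0 := ha0
    rw [e1] at e
    have e2 : sy a0 (F v0) = sy a0 a0 := by
      refine mul_J_cancel hdet' ?_
      rw [← e, sy_self, Matrix.smul_mul]
      rfl
    have e3 : F v0 - a0 = 0 := by
      refine sym_ne ha00 ?_
      show sy a0 (F v0 - a0) = 0
      rw [sy_sub, e2, sub_self]
    exact sub_eq_zero.mp e3
  have c3 : ∀ w, F w = 0 → w = 0 := by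
    intro w hw
    have e := c1 w
    have e0 : sy a0 (F w) = 0 := by
      rw [hw]
      unfold sy
      rw [Matrix.vecMulVec_zero, Matrix.zero_vecMulVec, add_zero]
    rw [e0, Matrix.zero_mul] at e
    have e1 := h.inj _ (symJ_mem hJ hdet (sy_transpose v0 w)) e
    have e2 : sy v0 w = 0 := mul_J_cancel hdet (by rw [e1, Matrix.zero_mul])
    exact sym_ne hv0 e2
  have c4 : ∀ w, D (xv J w) = xv J' (F w) := by
    intro w
    by_cases hp : Pa w v0
    · obtain ⟨c, rfl⟩ := hp.exists_smul hv0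
      rw [xv_smul, map_smul, map_smul, xv_smul, ha0, c2]
    obtain ⟨s, hs⟩ := ex_sp hJ' hdet' (h.ex (xv_ex hJ hdet w))
    obtain ⟨p, hp1⟩ := ex_sp hJ' hdet' (h.ex (xv_ex hJ hdet (v0 + w)))
    obtain ⟨q, hq1⟩ := ex_sp hJ' hdet' (h.ex (xv_ex hJ hdet (v0 - w)))
    rw [xv_add, map_add, map_add, ha0, hs, c1] at hp1
    rw [xv_sub, map_add, map_sub, ha0, hs, c1] at hq1
    have e1 : vecMulVec a0 a0 + sy a0 (F w) + vecMulVec s s = vecMulVec p p := by
      refine mul_J_cancel hdet' ?_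
      rw [Matrix.add_mul, Matrix.add_mul]
      exact hp1
    have e2 : vecMulVec a0 a0 - sy a0 (F w) + vecMulVec s s = vecMulVec q q := by
      refine mul_J_cancel hdet' ?_
      rw [Matrix.add_mul, Matrix.sub_mul]
      exact hq1
    have hna : ¬ Pa a0 (F w) := by
      intro hP
      obtain ⟨c, hc⟩ := hP.symm.exists_smul ha00
      apply hp
      have e3 : F (w - c • v0) = 0 := by rw [map_sub, map_smul, c2, hc, sub_self]
      have e4 := sub_eq_zero.mp (c3 _ e3)
      rw [e4]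
      exact Pa.smul_self c v0
    rcases sq_step hna e1 e2 with e | ⟨c, hc⟩
    · rw [hs]
      unfold xv
      rw [e]
    · exfalso
      apply hp
      have e3 : D (xv J w - (c * c) • xv J v0) = 0 := by
        rw [map_sub, map_smul, hs, ha0, hc, xv_smul, sub_self]
      have e4 := h.inj _ ((gJ J).sub_mem (xv_mem hJ hdet w).1
        ((gJ J).smul_mem _ (xv_mem hJ hdet v0).1)) e3
      have e5 : vecMulVec w w = (c * c) • vecMulVec v0 v0 := by
        refine mul_J_cancel hdet ?_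
        rw [Matrix.smul_mul]
        exact sub_eq_zero.mp e4
      exact pa_of_sq e5
  set Fm := LinearMap.toMatrix' F with hFm
  have hFv : ∀ v, Fm *ᵥ v = F v := fun v => LinearMap.toMatrix'_mulVec F v
  have hFt : ∀ v, v ᵥ* Fmᵀ = F v := fun v => by rw [Matrix.vecMul_transpose, hFv]
  have c5 : ∀ W : Matrix (Fin m) (Fin m) k, Wᵀ = W → D (W * J) = Fm * W * Fmᵀ * J' := by
    intro W hW
    have h4 := sym_span hW
    clear hW
    induction h4 using Submodule.span_induction with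
    | mem y hy =>
      obtain ⟨v, rfl⟩ := hy
      have e : Fm * vecMulVec v v * Fmᵀ = vecMulVec (F v) (F v) := by
        rw [Matrix.mul_vecMulVec, Matrix.vecMulVec_mul, hFv, hFt]
      rw [e]
      exact c4 v
    | zero => rw [Matrix.zero_mul, map_zero, Matrix.mul_zero, Matrix.zero_mul, Matrix.zero_mul]
    | add y z _ _ hy hz =>
      rw [Matrix.add_mul, map_add, hy, hz, Matrix.mul_add, Matrix.add_mul, Matrix.add_mul]
    | smul a y _ hy =>
      rw [Matrix.smul_mul, map_smul, hy, Matrix.mul_smul, Matrix.smul_mul, Matrix.smul_mul]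
  have c5' : ∀ v w, D (sy v w * J) = sy (F v) (F w) * J' := by
    intro v w
    rw [c5 _ (sy_transpose v w)]
    unfold sy
    rw [Matrix.mul_add, Matrix.add_mul, Matrix.mul_vecMulVec, Matrix.mul_vecMulVec,
      Matrix.vecMulVec_mul, Matrix.vecMulVec_mul, hFv, hFv, hFt, hFt]
  have c6 : ∀ v w, F w ⬝ᵥ (J' *ᵥ F v) = w ⬝ᵥ (J *ᵥ v) := by
    intro v w
    by_cases hv : v = 0
    · rw [hv, map_zero, Matrix.mulVec_zero, Matrix.mulVec_zero, dotProduct_zero, dotProduct_zero]
    by_cases hw : w = 0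
    · rw [hw, map_zero, zero_dotProduct, zero_dotProduct]
    have e := h.lie _ (xv_mem hJ hdet v).1 _ (xv_mem hJ hdet w).1
    rw [xv_bracket v (xv_mem hJ hdet w).1, c4, c4, xv_bracket (F v) (xv_mem hJ' hdet' (F w)).1,
      map_neg, neg_inj] at e
    have e1 : xv J w *ᵥ v = (w ⬝ᵥ (J *ᵥ v)) • w := vmvJ_mulVec w w v J
    have e2 : xv J' (F w) *ᵥ F v = (F w ⬝ᵥ (J' *ᵥ F v)) • F w := vmvJ_mulVec _ _ _ _
    rw [e1, e2, c5', map_smul, sy_smul, sy_smul] at e
    have e3 := mul_J_cancel hdet' e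
    by_contra hne
    have e4 : ((w ⬝ᵥ (J *ᵥ v)) - (F w ⬝ᵥ (J' *ᵥ F v))) • sy (F v) (F w) = 0 := by
      rw [sub_smul, e3, sub_self]
    have e5 := (smul_eq_zero.mp e4).resolve_left (sub_ne_zero.mpr (Ne.symm hne))
    exact hw (c3 _ (sym_ne (fun h0 => hv (c3 _ h0)) e5))
  have c6' : Fmᵀ * J' * Fm = J := by
    ext i j
    have e := c6 (Pi.single j 1) (Pi.single i 1)
    rw [← hFv, ← hFv, Matrix.mulVec_mulVec, ← Matrix.vecMul_transpose,
      ← Matrix.dotProduct_mulVec, Matrix.mulVec_mulVec, ← Matrix.mul_assoc,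
      single_one_dotProduct, single_one_dotProduct, Matrix.mulVec_single_one,
      Matrix.mulVec_single_one] at e
    exact e
  have hb : (J⁻¹ * Fmᵀ * J') * Fm = 1 := by
    calc (J⁻¹ * Fmᵀ * J') * Fm = J⁻¹ * (Fmᵀ * J' * Fm) := by simp only [Matrix.mul_assoc]
      _ = 1 := by rw [c6', Matrix.nonsing_inv_mul _ hJu]
  have hD : ∀ X ∈ gJ J, D X = Fm * X * (J⁻¹ * Fmᵀ * J') := by
    intro X hX
    obtain ⟨e1, e2⟩ := symJ_of_mem hJ hdet hX
    calc D X = D (X * J⁻¹ * J) := by rw [e2]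
      _ = Fm * (X * J⁻¹) * Fmᵀ * J' := c5 _ e1
      _ = _ := by simp only [Matrix.mul_assoc]
  refine ⟨Fm, J⁻¹ * Fmᵀ * J', ?_, hb, Or.inl hD⟩
  have e : ∀ v : Fin n → k, (Fm * (J⁻¹ * Fmᵀ * J') - 1) *ᵥ v = 0 := by
    intro v
    by_cases hv : v = 0
    · rw [hv, Matrix.mulVec_zero]
    obtain ⟨X, hX, e1⟩ := h.surj _ (xv_mem hJ' hdet' v).1
    rw [hD X hX] at e1
    have e2 : (Fm * (J⁻¹ * Fmᵀ * J') - 1) * xv J' v = 0 := by
      rw [← e1, Matrix.sub_mul, Matrix.one_mul]
      calc Fm * (J⁻¹ * Fmᵀ * J') * (Fm * X * (J⁻¹ * Fmᵀ * J')) - Fm * X * (J⁻¹ * Fmᵀ * J')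
          = Fm * ((J⁻¹ * Fmᵀ * J') * Fm) * (X * (J⁻¹ * Fmᵀ * J')) - Fm * X * (J⁻¹ * Fmᵀ * J') := by
            simp only [Matrix.mul_assoc]
        _ = 0 := by rw [hb, Matrix.mul_one, Matrix.mul_assoc Fm X, sub_self]
    have e3 : vecMulVec ((Fm * (J⁻¹ * Fmᵀ * J') - 1) *ᵥ v) v = 0 := by
      refine mul_J_cancel hdet' ?_
      have e4 : ∀ M : Matrix (Fin n) (Fin n) k, M * xv J' v = vecMulVec (M *ᵥ v) v * J' := by
        intro M
        unfold xv
        rw [← Matrix.mul_assoc, Matrix.mul_vecMulVec]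
      rw [Matrix.zero_mul, ← e4, e2]
    by_contra hne
    exact vmv_ne_zero hne hv e3
  have e1 : Fm * (J⁻¹ * Fmᵀ * J') - 1 = 0 := by
    ext i j
    have := congrFun (e (Pi.single j 1)) i
    rw [Matrix.mulVec_single_one] at this
    exact this
  exact sub_eq_zero.mp e1

theorem lieStd_sp_sp (hJ : Jᵀ = -J) (hdet : J.det ≠ 0) (hJ' : J'ᵀ = -J') (hdet' : J'.det ≠ 0)
    (hm : 0 < m) : LieStd J J' :=
  lieStd_of fun _ h => li_sp_sp hJ hdet hJ' hdet' hm h

end Main

end Pool.Agent.Helper97.AU
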